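import Pool.Agent.helper36.PT.Spec

/-! # Row INA: incomplete Kloosterman sums over an arithmetic progression -/

set_option autoImplicit false

namespace Pool.Agent.PT

open Finset Pool.Agent.helper71.AA

theorem INA_geom (z : ℂ) (hz : z ≠ 1) (hn : ‖z‖ = 1) (u v : ℕ) (h : u ≤ v) :
    ‖∑ i ∈ Ico u v, z ^ i‖ ≤ 2 / ‖z - 1‖ := by
  rw [geom_sum_Ico hz h, norm_div]
  apply div_le_div_of_nonneg_right _ (norm_nonneg _)
  calc ‖z ^ v - z ^ u‖ ≤ ‖z ^ v‖ + ‖z ^ u‖ := norm_sub_le _ _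
    _ = 2 := by rw [norm_pow, norm_pow, hn, one_pow, one_pow]; norm_num

theorem INA_sin (x : ℝ) (h0 : 0 ≤ x) (h1 : x ≤ 1) : 2 * x * (1 - x) ≤ Real.sin (Real.pi * x) := by
  have hp := Real.pi_pos
  rcases le_total x (1 / 2) with h | h
  · have := Real.mul_le_sin (x := Real.pi * x) (by positivity) (by nlinarith)
    have h2 : 2 / Real.pi * (Real.pi * x) = 2 * x := by field_simp
    rw [h2] at this
    nlinarith
  · have := Real.mul_le_sin (x := Real.pi * (1 - x)) (by apply mul_nonneg hp.le; linarith)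
      (by nlinarith)
    have h2 : 2 / Real.pi * (Real.pi * (1 - x)) = 2 * (1 - x) := by field_simp
    rw [h2] at this
    have h3 : Real.sin (Real.pi * (1 - x)) = Real.sin (Real.pi * x) := by
      rw [mul_sub, mul_one, Real.sin_pi_sub]
    rw [h3] at this
    nlinarith

theorem INA_low (n : ℕ) [NeZero n] (k : ZMod n) :
    4 * ((k.val : ℝ) / n) * (1 - (k.val : ℝ) / n) ≤ ‖ZMod.stdAddChar k - 1‖ := by
  have hn : (0 : ℝ) < n := by exact_mod_cast NeZero.pos n
  have hk : (k.val : ℝ) / n ≤ 1 := by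
    rw [div_le_one hn]
    exact_mod_cast (ZMod.val_lt k).le
  have h0 : 0 ≤ (k.val : ℝ) / n := by positivity
  have h1 : ZMod.stdAddChar k = Complex.exp (Complex.I * ((2 * Real.pi * ((k.val : ℝ) / n) : ℝ) : ℂ)) := by
    have h2 := ZMod.stdAddChar_coe (N := n) (k.val : ℤ)
    rw [Int.cast_natCast, ZMod.natCast_zmod_val] at h2
    rw [h2]
    congr 1
    push_cast
    ring
  rw [h1, Complex.norm_exp_I_mul_ofReal_sub_one, Real.norm_eq_abs, abs_mul, abs_two]
  have h3 : 2 * Real.pi * ((k.val : ℝ) / n) / 2 = Real.pi * ((k.val : ℝ) / n) := by ring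
  rw [h3]
  have h4 := INA_sin _ h0 hk
  have h5 := le_abs_self (Real.sin (Real.pi * ((k.val : ℝ) / n)))
  nlinarith

theorem INA_T (n : ℕ) [NeZero n] (k : ZMod n) (hk : k ≠ 0) (u v : ℕ) (h : u ≤ v) :
    ‖∑ i ∈ Ico u v, ZMod.stdAddChar (k * (i : ZMod n))‖ ≤
      (n : ℝ) / 2 * (1 / (k.val : ℝ) + 1 / ((n - k.val : ℕ) : ℝ)) := by
  have hn : (0 : ℝ) < n := by exact_mod_cast NeZero.pos n
  have hlt := ZMod.val_lt k
  have hv : k.val ≠ 0 := by rwa [Ne, ZMod.val_eq_zero]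
  have hv0 : (0 : ℝ) < k.val := by exact_mod_cast Nat.pos_of_ne_zero hv
  have hv1 : (0 : ℝ) < n - k.val := by
    rw [sub_pos]
    exact_mod_cast hlt
  have h1 : ∀ i : ℕ, ZMod.stdAddChar (k * (i : ZMod n)) = (ZMod.stdAddChar k) ^ i := by
    intro i
    rw [← AddChar.map_nsmul_eq_pow, nsmul_eq_mul, mul_comm]
  have h2 : ZMod.stdAddChar k ≠ 1 := by
    intro h3
    apply hk
    rwa [← (ZMod.stdAddChar (N := n)).map_zero_eq_one, ZMod.injective_stdAddChar.eq_iff] at h3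
  have h3 : ‖ZMod.stdAddChar k‖ = 1 := by
    rw [ZMod.stdAddChar_apply]
    exact Circle.norm_coe _
  simp only [h1]
  refine (INA_geom _ h2 h3 u v h).trans ?_
  have h4 := INA_low n k
  have h5 : 0 < 4 * ((k.val : ℝ) / n) * (1 - (k.val : ℝ) / n) := by
    have : 0 < 1 - (k.val : ℝ) / n := by
      rw [sub_pos, div_lt_one hn]
      linarith
    positivity
  refine (div_le_div_of_nonneg_left (by norm_num) h5 h4).trans (le_of_eq ?_)
  rw [Nat.cast_sub hlt.le]
  have h6 : (n : ℝ) - k.val ≠ 0 := hv1.ne'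
  field_simp
  ring

theorem INA_harm (n : ℕ) (hn : 0 < n) : ∑ a ∈ Ico 1 n, 1 / (a : ℝ) ≤ 1 + Real.log n := by
  have h1 : ∑ a ∈ Ico 1 n, 1 / (a : ℝ) = (harmonic (n - 1) : ℝ) := by
    rw [harmonic, Finset.sum_Ico_eq_sum_range]
    push_cast
    apply Finset.sum_congr rfl
    intro i _
    rw [one_div, add_comm]
  rw [h1]
  refine (harmonic_le_one_add_log (n - 1)).trans ?_
  rcases Nat.eq_zero_or_pos (n - 1) with h | h
  · rw [h]
    have : 0 ≤ Real.log n := Real.log_natCast_nonneg n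
    simpa using this
  · have : Real.log ((n - 1 : ℕ) : ℝ) ≤ Real.log n := by
      apply Real.log_le_log (by exact_mod_cast h)
      exact_mod_cast Nat.sub_le n 1
    linarith

theorem INA_sumT (n : ℕ) [NeZero n] (u v : ℕ) (h : u ≤ v) :
    ∑ k : ZMod n, ‖∑ i ∈ Ico u v, ZMod.stdAddChar (k * (i : ZMod n))‖ ≤
      (v - u) + n * (1 + Real.log n) := by
  have hn : (0 : ℝ) < n := by exact_mod_cast NeZero.pos n
  rw [← Finset.add_sum_erase _ _ (Finset.mem_univ (0 : ZMod n))]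
  have h0 : ‖∑ i ∈ Ico u v, ZMod.stdAddChar ((0 : ZMod n) * (i : ZMod n))‖ ≤ (v - u : ℝ) := by
    simp only [zero_mul, AddChar.map_zero_eq_one, sum_const, Nat.card_Ico, nsmul_eq_mul, mul_one]
    rw [Complex.norm_natCast, Nat.cast_sub h]
  have h1 : ∑ k ∈ (univ : Finset (ZMod n)).erase 0,
      ‖∑ i ∈ Ico u v, ZMod.stdAddChar (k * (i : ZMod n))‖ ≤
      ∑ k ∈ (univ : Finset (ZMod n)).erase 0,
        (n : ℝ) / 2 * (1 / (k.val : ℝ) + 1 / ((n - k.val : ℕ) : ℝ)) :=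
    Finset.sum_le_sum fun k hk => INA_T n k (Finset.ne_of_mem_erase hk) u v h
  have h2 : ∑ k ∈ (univ : Finset (ZMod n)).erase 0,
        (n : ℝ) / 2 * (1 / (k.val : ℝ) + 1 / ((n - k.val : ℕ) : ℝ)) =
      ∑ a ∈ Ico 1 n, (n : ℝ) / 2 * (1 / (a : ℝ) + 1 / ((n - a : ℕ) : ℝ)) := by
    apply Finset.sum_bij (fun k _ => k.val)
    · intro k hk
      rw [Finset.mem_Ico]
      refine ⟨?_, ZMod.val_lt k⟩
      rw [Nat.one_le_iff_ne_zero, Ne, ZMod.val_eq_zero]
      exact Finset.ne_of_mem_erase hk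
    · intro a _ b _ hab
      exact ZMod.val_injective n hab
    · intro a ha
      rw [Finset.mem_Ico] at ha
      refine ⟨(a : ZMod n), ?_, ZMod.val_cast_of_lt ha.2⟩
      rw [Finset.mem_erase]
      refine ⟨?_, Finset.mem_univ _⟩
      intro h3
      have h4 := ZMod.val_cast_of_lt ha.2
      rw [h3, ZMod.val_zero] at h4
      omega
    · intro k _
      rfl
  have h3 : ∑ a ∈ Ico 1 n, 1 / ((n - a : ℕ) : ℝ) = ∑ a ∈ Ico 1 n, 1 / (a : ℝ) := by
    have h4 := Finset.sum_Ico_reflect (fun a : ℕ => 1 / (a : ℝ)) 1 (m := n) (n := n) (Nat.le_succ n)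
    rw [h4]
    congr 2
    omega
  have h4 : ∑ a ∈ Ico 1 n, (n : ℝ) / 2 * (1 / (a : ℝ) + 1 / ((n - a : ℕ) : ℝ)) ≤
      n * (1 + Real.log n) := by
    rw [← Finset.mul_sum, Finset.sum_add_distrib, h3]
    have := INA_harm n (NeZero.pos n)
    nlinarith
  linarith

theorem INA_ef (n : ℕ) [NeZero n] (j : ℤ) : ef (j / n) = ZMod.stdAddChar (j : ZMod n) := by
  rw [ZMod.stdAddChar_coe, ef]
  congr 1
  push_cast
  ring

theorem INA (h1 : KLS_stmt) : INA_stmt := by
  intro M₀ M₁ r u v h0 hc hs huv m hm j hj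
  classical
  have : NeZero M₁ := ⟨h0.ne'⟩
  have hn : (0 : ℝ) < M₁ := by exact_mod_cast h0
  have hmu : IsUnit (m : ZMod M₁) := by
    rw [ZMod.coe_int_isUnit_iff_isCoprime]
    exact hm.symm
  have hK : ∀ h : ZMod M₁, ‖∑ x : (ZMod M₁)ˣ, ZMod.stdAddChar ((m : ZMod M₁) *
      ((x⁻¹ : (ZMod M₁)ˣ) : ZMod M₁) + h * (x : ZMod M₁))‖ ≤
      2 ^ M₁.primeFactors.card * Real.sqrt M₁ := fun h => h1 M₁ hs m h hmu
  have key : (M₁ : ℂ) * ∑ i ∈ (Ico u v).filter (fun i => (r + M₀ * i).Coprime M₁), ef (j i / M₁) =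
      ∑ h : ZMod M₁, (∑ x : (ZMod M₁)ˣ, ZMod.stdAddChar ((m : ZMod M₁) *
        ((x⁻¹ : (ZMod M₁)ˣ) : ZMod M₁) + (-h) * (x : ZMod M₁))) *
        ∑ i ∈ Ico u v, ZMod.stdAddChar (h * ((r + M₀ * i : ℕ) : ZMod M₁)) := by
    have e1 : ∀ i ∈ Ico u v, ∑ h : ZMod M₁, (∑ x : (ZMod M₁)ˣ, ZMod.stdAddChar ((m : ZMod M₁) *
        ((x⁻¹ : (ZMod M₁)ˣ) : ZMod M₁) + (-h) * (x : ZMod M₁))) *
        ZMod.stdAddChar (h * ((r + M₀ * i : ℕ) : ZMod M₁)) =
        if (r + M₀ * i).Coprime M₁ then (M₁ : ℂ) * ef (j i / M₁) else 0 := by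
      intro i hi
      have e2 : ∑ h : ZMod M₁, (∑ x : (ZMod M₁)ˣ, ZMod.stdAddChar ((m : ZMod M₁) *
          ((x⁻¹ : (ZMod M₁)ˣ) : ZMod M₁) + (-h) * (x : ZMod M₁))) *
          ZMod.stdAddChar (h * ((r + M₀ * i : ℕ) : ZMod M₁)) =
          ∑ x : (ZMod M₁)ˣ, ZMod.stdAddChar ((m : ZMod M₁) * ((x⁻¹ : (ZMod M₁)ˣ) : ZMod M₁)) *
            (if ((r + M₀ * i : ℕ) : ZMod M₁) - (x : ZMod M₁) = 0 then
              (Fintype.card (ZMod M₁) : ℂ) else 0) := by
        simp_rw [Finset.sum_mul]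
        rw [Finset.sum_comm]
        apply Finset.sum_congr rfl
        intro x _
        have e3 := AddChar.sum_mulShift (R' := ℂ) (((r + M₀ * i : ℕ) : ZMod M₁) - (x : ZMod M₁))
          (ZMod.isPrimitive_stdAddChar M₁)
        push_cast at e3 ⊢
        rw [← e3, Finset.mul_sum]
        apply Finset.sum_congr rfl
        intro h _
        rw [← AddChar.map_add_eq_mul, ← AddChar.map_add_eq_mul]
        congr 1
        ring
      rw [e2]
      split_ifs with hcp
      · rw [Finset.sum_eq_single (ZMod.unitOfCoprime (r + M₀ * i) hcp)]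
        · rw [ZMod.coe_unitOfCoprime, sub_self, if_pos rfl, ZMod.card, mul_comm, INA_ef]
          congr 2
          have e4 := (ZMod.intCast_zmod_eq_zero_iff_dvd _ M₁).mpr (hj i hi hcp)
          push_cast at e4
          rw [sub_eq_zero] at e4
          have e5 : (((ZMod.unitOfCoprime (r + M₀ * i) hcp)⁻¹ : (ZMod M₁)ˣ) : ZMod M₁) *
              ((r : ZMod M₁) + M₀ * i) = 1 := by
            have := Units.inv_mul (ZMod.unitOfCoprime (r + M₀ * i) hcp)
            rw [ZMod.coe_unitOfCoprime] at this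
            push_cast at this
            exact this
          rw [← e4]
          calc ((r : ZMod M₁) + M₀ * i) * (j i : ZMod M₁) *
                (((ZMod.unitOfCoprime (r + M₀ * i) hcp)⁻¹ : (ZMod M₁)ˣ) : ZMod M₁)
              = (((ZMod.unitOfCoprime (r + M₀ * i) hcp)⁻¹ : (ZMod M₁)ˣ) : ZMod M₁) *
                ((r : ZMod M₁) + M₀ * i) * (j i : ZMod M₁) := by ring
            _ = (j i : ZMod M₁) := by rw [e5, one_mul]
        · intro x _ hx
          rw [if_neg, mul_zero]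
          intro h3
          apply hx
          ext
          rw [ZMod.coe_unitOfCoprime]
          exact (sub_eq_zero.mp h3).symm
        · intro h3
          exact absurd (Finset.mem_univ _) h3
      · apply Finset.sum_eq_zero
        intro x _
        rw [if_neg, mul_zero]
        intro h3
        apply hcp
        rw [← ZMod.isUnit_iff_coprime, sub_eq_zero.mp h3]
        exact x.isUnit
    rw [Finset.mul_sum, Finset.sum_filter]
    simp_rw [Finset.mul_sum]
    rw [Finset.sum_comm]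
    apply Finset.sum_congr rfl
    intro i hi
    rw [← e1 i hi]
  have hre : ∑ h : ZMod M₁, ‖∑ i ∈ Ico u v, ZMod.stdAddChar (h * ((r + M₀ * i : ℕ) : ZMod M₁))‖ ≤
      (v - u) + M₁ * (1 + Real.log M₁) := by
    refine le_trans (le_of_eq ?_) (INA_sumT M₁ u v huv)
    apply Finset.sum_bij (fun h _ => h * (M₀ : ZMod M₁))
    · intro a _
      exact Finset.mem_univ _
    · intro a _ b _ hab
      have hM : IsUnit (M₀ : ZMod M₁) := (ZMod.isUnit_iff_coprime M₀ M₁).mpr hc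
      exact hM.mul_right_cancel hab
    · intro b _
      have hM : IsUnit (M₀ : ZMod M₁) := (ZMod.isUnit_iff_coprime M₀ M₁).mpr hc
      obtain ⟨x, hx⟩ := hM
      refine ⟨b * ((x⁻¹ : (ZMod M₁)ˣ) : ZMod M₁), Finset.mem_univ _, ?_⟩
      rw [← hx, mul_assoc, Units.inv_mul, mul_one]
    · intro h _
      have e1 : ∑ i ∈ Ico u v, ZMod.stdAddChar (h * ((r + M₀ * i : ℕ) : ZMod M₁)) =
          ZMod.stdAddChar (h * (r : ZMod M₁)) *
            ∑ i ∈ Ico u v, ZMod.stdAddChar (h * (M₀ : ZMod M₁) * (i : ZMod M₁)) := by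
        rw [Finset.mul_sum]
        apply Finset.sum_congr rfl
        intro i _
        rw [← AddChar.map_add_eq_mul]
        congr 1
        push_cast
        ring
      rw [e1, norm_mul]
      have e2 : ‖ZMod.stdAddChar (h * (r : ZMod M₁))‖ = 1 := by
        rw [ZMod.stdAddChar_apply]
        exact Circle.norm_coe _
      rw [e2, one_mul]
  have hfin : (M₁ : ℝ) * ‖∑ i ∈ (Ico u v).filter (fun i => (r + M₀ * i).Coprime M₁),
      ef (j i / M₁)‖ ≤ 2 ^ M₁.primeFactors.card * Real.sqrt M₁ *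
        ((v - u) + M₁ * (1 + Real.log M₁)) := by
    calc (M₁ : ℝ) * ‖∑ i ∈ (Ico u v).filter (fun i => (r + M₀ * i).Coprime M₁),
          ef (j i / M₁)‖
        = ‖(M₁ : ℂ) * ∑ i ∈ (Ico u v).filter (fun i => (r + M₀ * i).Coprime M₁),
          ef (j i / M₁)‖ := by rw [norm_mul, Complex.norm_natCast]
      _ ≤ ∑ h : ZMod M₁, 2 ^ M₁.primeFactors.card * Real.sqrt M₁ *
          ‖∑ i ∈ Ico u v, ZMod.stdAddChar (h * ((r + M₀ * i : ℕ) : ZMod M₁))‖ := by
        rw [key]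
        refine (norm_sum_le _ _).trans (Finset.sum_le_sum fun h _ => ?_)
        rw [norm_mul]
        exact mul_le_mul_of_nonneg_right (hK (-h)) (norm_nonneg _)
      _ ≤ _ := by
        rw [← Finset.mul_sum]
        exact mul_le_mul_of_nonneg_left hre (by positivity)
  have h3 : (M₁ : ℝ) * (2 ^ M₁.primeFactors.card * Real.sqrt M₁ *
      ((v - u) / M₁ + 1 + Real.log M₁)) = 2 ^ M₁.primeFactors.card * Real.sqrt M₁ *
        ((v - u) + M₁ * (1 + Real.log M₁)) := by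
    field_simp
    ring
  exact le_of_mul_le_mul_left (hfin.trans_eq h3.symm) hn

end Pool.Agent.PT
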